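import Pool.Agent.Helper51.REC.Goals2
import Pool.Agent.Helper3.RS.REP
import Pool.Agent.Helper42.RD.VAL

/-!
# Project REC: principal divisors outside a set which avoids given primes (`D_SEX`)
-/

set_option autoImplicit false

namespace Pool.Agent.Helper96.REC

open NumberField Module IsDedekindDomain Pool.Agent.Helper51.RP Pool.Agent.Helper42.PP
open Pool.Agent.Helper51.REC Pool.Agent.Helper42.RD

section counts

variable {F : Type} [Field F] [NumberField F]

/-- The exponent of the prime `w` in the ideal `I`. -/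
noncomputable def cn (w : HeightOneSpectrum (𝓞 F)) (I : Ideal (𝓞 F)) : ℤ :=
  ((Associates.mk w.asIdeal).count (Associates.mk I).factors : ℤ)

theorem cn_mul (w : HeightOneSpectrum (𝓞 F)) {I J : Ideal (𝓞 F)} (hI : I ≠ ⊥) (hJ : J ≠ ⊥) :
    cn w (I * J) = cn w I + cn w J := by
  unfold cn
  have hI' : Associates.mk I ≠ 0 := Associates.mk_ne_zero.2 hI
  have hJ' : Associates.mk J ≠ 0 := Associates.mk_ne_zero.2 hJ
  rw [← Associates.mk_mul_mk, Associates.count_mul hI' hJ' w.associates_irreducible]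
  push_cast
  rfl

theorem cn_self (w : HeightOneSpectrum (𝓞 F)) : cn w w.asIdeal = 1 := by
  unfold cn
  rw [Associates.count_self w.associates_irreducible]
  rfl

theorem cn_of_ne {w v : HeightOneSpectrum (𝓞 F)} (h : w ≠ v) : cn w v.asIdeal = 0 := by
  unfold cn
  rw [Associates.count_eq_zero_of_ne w.associates_irreducible v.associates_irreducible]
  · rfl
  · intro e
    apply h
    ext1
    exact associated_iff_eq.1 (Associates.mk_eq_mk_iff_associated.1 e)

theorem cn_not_dvd {w : HeightOneSpectrum (𝓞 F)} {I : Ideal (𝓞 F)} (hI : I ≠ ⊥)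
    (h : ¬ w.asIdeal ∣ I) : cn w I = 0 := by
  unfold cn
  rw [Int.natCast_eq_zero]
  by_contra hc
  exact h ((Associates.count_ne_zero_iff_dvd hI w.irreducible).1 hc)

theorem cn_one (w : HeightOneSpectrum (𝓞 F)) : cn w 1 = 0 := by
  refine cn_not_dvd one_ne_zero fun h => w.isPrime.ne_top ?_
  rw [← Ideal.one_eq_top]
  exact (isUnit_iff_eq_one.1 (isUnit_of_dvd_one h))

theorem cn_pow (w : HeightOneSpectrum (𝓞 F)) {I : Ideal (𝓞 F)} (hI : I ≠ ⊥) (k : ℕ) :
    cn w (I ^ k) = k * cn w I := by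
  induction k with
  | zero => rw [pow_zero, cn_one]; simp
  | succ k ih =>
    rw [pow_succ, cn_mul w (pow_ne_zero k hI) hI, ih]
    push_cast
    ring

theorem cn_prod (w : HeightOneSpectrum (𝓞 F)) {ι : Type} (s : Finset ι) (f : ι → Ideal (𝓞 F))
    (hf : ∀ i ∈ s, f i ≠ ⊥) : cn w (∏ i ∈ s, f i) = ∑ i ∈ s, cn w (f i) := by
  classical
  induction s using Finset.induction_on with
  | empty => rw [Finset.prod_empty, Finset.sum_empty, cn_one]
  | insert i s hi ih =>
    rw [Finset.prod_insert hi, Finset.sum_insert hi, cn_mul w (hf i (Finset.mem_insert_self i s))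
      (Finset.prod_ne_zero_iff.2 fun j hj => hf j (Finset.mem_insert_of_mem hj)),
      ih fun j hj => hf j (Finset.mem_insert_of_mem hj)]

theorem cn_span (w : HeightOneSpectrum (𝓞 F)) {α : 𝓞 F} (hα : α ≠ 0) :
    ordv w (α : F) = cn w (Ideal.span {α}) := by
  unfold ordv cn
  rw [HeightOneSpectrum.valuation_of_algebraMap, HeightOneSpectrum.intValuation_if_neg _ hα,
    WithZero.log_exp, neg_neg]

/-- The ideal with the exponents `k w`, `w ∈ s`. -/
theorem cn_divisor (s : Finset (HeightOneSpectrum (𝓞 F))) (k : HeightOneSpectrum (𝓞 F) → ℕ)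
    (hk : ∀ w, w ∉ s → k w = 0) (w : HeightOneSpectrum (𝓞 F)) :
    cn w (∏ v ∈ s, v.asIdeal ^ k v) = k w := by
  rw [cn_prod w s _ fun v _ => pow_ne_zero _ v.ne_bot]
  have h : ∀ v ∈ s, v ≠ w → cn w (v.asIdeal ^ k v) = 0 := by
    intro v _ hv
    rw [cn_pow w v.ne_bot, cn_of_ne (Ne.symm hv), mul_zero]
  rw [Finset.sum_eq_single w h]
  · rw [cn_pow w w.ne_bot, cn_self, mul_one]
  · intro hw
    rw [hk w hw, pow_zero, cn_one]

/-- An element with given ideal up to one of the ideals `c j`. -/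
theorem exists_elt {h : ℕ} {c : Fin h → Ideal (𝓞 F)} (hc : ∀ j, c j ≠ ⊥)
    (hp : ∀ J : Ideal (𝓞 F), J ≠ ⊥ → ∃! j, (J * c j).IsPrincipal)
    {J : Ideal (𝓞 F)} (hJ : J ≠ ⊥) : ∃ x : Fˣ, ∀ w : HeightOneSpectrum (𝓞 F),
      (∀ j, ¬ w.asIdeal ∣ c j) → ordv w (x : F) = cn w J := by
  obtain ⟨j, hj, -⟩ := hp J hJ
  obtain ⟨a, ha⟩ := hj.principal
  have ha' : J * c j = Ideal.span {a} := ha
  have ha0 : a ≠ 0 := by
    rintro rfl
    rw [Ideal.span_singleton_zero] at ha'
    exact mul_ne_zero hJ (hc j) ha'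
  have ha1 : (a : F) ≠ 0 := by
    intro h0
    exact ha0 ((FaithfulSMul.algebraMap_injective (𝓞 F) F) (by rw [map_zero]; exact h0))
  refine ⟨Units.mk0 (a : F) ha1, fun w hw => ?_⟩
  rw [Units.val_mk0, cn_span w ha0, ← ha', cn_mul w hJ (hc j), cn_not_dvd (hc j) (hw j), add_zero]

end counts

section above

variable {F E : Type} [Field F] [NumberField F] [Field E] [NumberField E] [Algebra F E]

theorem exists_below' (W : HeightOneSpectrum (𝓞 E)) :
    ∃ v : HeightOneSpectrum (𝓞 F), Above W v := by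
  have hint : Algebra.IsIntegral (𝓞 F) (𝓞 E) := inferInstance
  obtain ⟨x, hx, hx0⟩ := Submodule.exists_mem_ne_zero_of_ne_bot W.ne_bot
  have hne : W.asIdeal.comap (algebraMap (𝓞 F) (𝓞 E)) ≠ ⊥ :=
    Ideal.comap_ne_bot_of_integral_mem hx0 hx (hint.isIntegral x)
  exact ⟨⟨W.asIdeal.comap (algebraMap (𝓞 F) (𝓞 E)), Ideal.IsPrime.comap _, hne⟩, rfl⟩

theorem above_unique {W : HeightOneSpectrum (𝓞 E)} {v v' : HeightOneSpectrum (𝓞 F)}
    (h : Above W v) (h' : Above W v') : v = v' := by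
  ext1
  exact h.symm.trans h'

end above

theorem d_sex : D_SEX := by
  intro F E _ _ _ _ _ 𝒲 h𝒲
  classical
  -- the modulus
  have hinj : Function.Injective (algebraMap (𝓞 F) (𝓞 E)) :=
    FaithfulSMul.algebraMap_injective (𝓞 F) (𝓞 E)
  have hm : (∏ W ∈ h𝒲.toFinset, W.asIdeal.map (algebraMap (𝓞 F) (𝓞 E))) ≠ ⊥ := by
    rw [← Ideal.zero_eq_bot, Finset.prod_ne_zero_iff]
    intro W _ h
    rw [Ideal.zero_eq_bot, Ideal.map_eq_bot_iff_of_injective hinj] at h
    exact W.ne_bot h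
  obtain ⟨h, c, hc, hp⟩ := Pool.Agent.Helper3.RS.s_rep E _ hm
  -- the primes which divide one of the ideals
  set T : Set (HeightOneSpectrum (𝓞 E)) := {w | ∃ j, w.asIdeal ∣ c j} with hT
  have hTfin : T.Finite := by
    have : T = ⋃ j, {w : HeightOneSpectrum (𝓞 E) | w.asIdeal ∣ c j} := by
      ext w
      simp [hT]
    rw [this]
    exact Set.finite_iUnion fun j => Ideal.finite_factors (hc j).1
  refine ⟨{v | ∃ w ∈ T, Above w v}, ?_, ?_, ?_⟩
  · have : {v : HeightOneSpectrum (𝓞 F) | ∃ w ∈ T, Above w v} = ⋃ w ∈ T, {v | Above w v} := by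
      ext v
      simp
    rw [this]
    refine hTfin.biUnion fun w _ => Set.Subsingleton.finite ?_
    intro v hv v' hv'
    exact above_unique hv hv'
  · rw [Set.disjoint_left]
    rintro v ⟨w, ⟨j, hj⟩, hw⟩ hv
    have h1 : v.asIdeal.map (algebraMap (𝓞 F) (𝓞 E)) ≤ w.asIdeal := by
      rw [Ideal.map_le_iff_le_comap]
      exact hw.ge
    have h2 : (∏ W ∈ h𝒲.toFinset, W.asIdeal.map (algebraMap (𝓞 F) (𝓞 E))) ≤ w.asIdeal := by
      refine le_trans ?_ h1
      exact Ideal.le_of_dvd (Finset.dvd_prod_of_mem _ (h𝒲.mem_toFinset.2 hv))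
    have h3 : c j ≤ w.asIdeal := Ideal.le_of_dvd hj
    have h4 : (⊤ : Ideal (𝓞 E)) ≤ w.asIdeal := by
      rw [← (hc j).2]
      exact sup_le h3 h2
    exact w.isPrime.ne_top (top_le_iff.1 h4)
  · intro S' hS' n
    have hJ : ∀ k : HeightOneSpectrum (𝓞 E) → ℕ, (∏ v ∈ n.support, v.asIdeal ^ k v) ≠ ⊥ := by
      intro k
      rw [← Ideal.zero_eq_bot, Finset.prod_ne_zero_iff]
      intro v _
      exact pow_ne_zero _ v.ne_bot
    obtain ⟨x, hx⟩ := exists_elt (fun j => (hc j).1) hp (hJ fun v => (n v).toNat)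
    obtain ⟨y, hy⟩ := exists_elt (fun j => (hc j).1) hp (hJ fun v => (-n v).toNat)
    refine ⟨x * y⁻¹, fun w hw => ?_⟩
    have hwT : ∀ j, ¬ w.asIdeal ∣ c j := by
      intro j hj
      obtain ⟨v, hv⟩ := exists_below' (F := F) w
      exact hw ⟨v, hS' ⟨w, ⟨j, hj⟩, hv⟩, hv⟩
    have h0 : ∀ v, v ∉ n.support → n v = 0 := fun v hv => Finsupp.notMem_support_iff.1 hv
    rw [Units.val_mul, Units.val_inv_eq_inv_val, ordv_mul w (Units.ne_zero _)
      (inv_ne_zero (Units.ne_zero _)), ordv_inv w (Units.ne_zero _), hx w hwT, hy w hwT,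
      cn_divisor _ _ (fun v hv => by rw [h0 v hv]; rfl),
      cn_divisor _ _ (fun v hv => by rw [h0 v hv]; rfl)]
    have := Int.toNat_sub_toNat_neg (n w)
    linarith

end Pool.Agent.Helper96.REC
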